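import Pool.Agent.Helper313LB.Up

/-!
# Polynomials over finite fields with prescribed factorization and trace zero
-/

set_option autoImplicit false
set_option linter.all false

open Module Polynomial
open scoped Classical

namespace Pool.Agent.Helper313SN

open Pool.Agent.Helper313LB

section ff

variable (R : Type) [Field R] [Finite R]

/-- irreducible polynomials of any degree -/
theorem exists_irred (m : ℕ) (hm : m ≠ 0) : ∃ π : R[X], π.Monic ∧ Irreducible π ∧
    π.natDegree = m := by
  obtain ⟨p, hp⟩ := CharP.exists R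
  haveI : Fact p.Prime := ⟨(CharP.char_is_prime_or_zero R p).resolve_right
    (CharP.char_ne_zero_of_finite R p)⟩
  haveI : NeZero m := ⟨hm⟩
  obtain ⟨α, hα⟩ := Field.exists_primitive_element R (FiniteField.Extension R p m)
  have hint : IsIntegral R α := Algebra.IsIntegral.isIntegral α
  refine ⟨minpoly R α, minpoly.monic hint, minpoly.irreducible hint, ?_⟩
  rw [← IntermediateField.adjoin.finrank hint, hα, IntermediateField.finrank_top',
    FiniteField.finrank_extension]

/-- the reduction at the second prime -/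
theorem exists_red2 {n : ℕ} (hn : 3 ≤ n) : ∃ (a : Fin (n - 1) → R) (c : R) (π : R[X]),
    Irreducible π ∧ 2 ≤ π.natDegree ∧ P n a = (X - C c) * π := by
  obtain ⟨π, h1, h2, h3⟩ := exists_irred R (n - 1) (by omega)
  have hm : ((X - C π.nextCoeff) * π).Monic := (monic_X_sub_C _).mul h1
  have hd : ((X - C π.nextCoeff) * π).natDegree = n := by
    rw [(monic_X_sub_C _).natDegree_mul h1, natDegree_X_sub_C, h3]
    omega
  have hnc : ((X - C π.nextCoeff) * π).nextCoeff = 0 := by
    rw [Monic.nextCoeff_mul (monic_X_sub_C _) h1, nextCoeff_X_sub_C, neg_add_cancel]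
  refine ⟨_, π.nextCoeff, π, h2, by omega, (eq_P (by omega) hm hd hnc).symm⟩

/-- irreducible quadratic polynomials with given trace -/
theorem exists_quadratic (h2 : (2 : R) ≠ 0) (s : R) : ∃ π : R[X], π.Monic ∧ Irreducible π ∧
    π.natDegree = 2 ∧ π.nextCoeff = s := by
  have hchar : ringChar R ≠ 2 := by
    intro h
    apply h2
    have := ringChar.Nat.cast_ringChar (R := R)
    rw [h] at this
    exact_mod_cast this
  obtain ⟨u, hu⟩ := FiniteField.exists_nonsquare hchar
  set t : R := s / 2 with ht
  have hs : s = 2 * t := by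
    rw [ht]
    field_simp
  let π : R[X] := X ^ 2 + (C s * X + C (t ^ 2 - u))
  have hdeg : (C s * X + C (t ^ 2 - u) : R[X]).degree < ((2 : ℕ) : WithBot ℕ) := by
    refine lt_of_le_of_lt degree_linear_le ?_
    exact_mod_cast Nat.one_lt_two
  have hm : π.Monic := monic_X_pow_add hdeg
  have hd : π.natDegree = 2 := by
    rw [show π = X ^ 2 + (C s * X + C (t ^ 2 - u)) from rfl,
      natDegree_add_eq_left_of_degree_lt, natDegree_X_pow]
    rw [degree_X_pow]
    exact hdeg
  have hnc : π.nextCoeff = s := by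
    rw [nextCoeff_of_natDegree_pos (by omega), hd]
    simp only [π]
    rw [coeff_add, coeff_add, coeff_X_pow, coeff_C_mul, coeff_X, coeff_C]
    norm_num
  refine ⟨π, hm, ?_, hd, hnc⟩
  rw [hm.irreducible_iff_roots_eq_zero_of_degree_le_three (by omega) (by omega)]
  rw [Multiset.eq_zero_iff_forall_notMem]
  intro x hx
  have h3 : π.eval x = 0 := (mem_roots'.1 hx).2
  apply hu
  refine ⟨x + t, ?_⟩
  simp only [π, eval_add, eval_pow, eval_X, eval_mul, eval_C] at h3
  rw [hs] at h3
  linear_combination -h3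

/-- the reduction at the third prime -/
theorem exists_red3 {n : ℕ} (hn : 3 ≤ n) (h2 : (2 : R) ≠ 0) (hc : n ≤ Nat.card R) :
    ∃ (a : Fin (n - 1) → R) (S : Finset R) (π : R[X]),
    Irreducible π ∧ π.natDegree = 2 ∧ P n a = π * ∏ c ∈ S, (X - C c) := by
  haveI := Fintype.ofFinite R
  obtain ⟨S, -, hS⟩ := Finset.exists_subset_card_eq (s := (Finset.univ : Finset R)) (n := n - 2) (by
    rw [Finset.card_univ, ← Nat.card_eq_fintype_card]
    omega)
  obtain ⟨π, h3, h4, h5, h6⟩ := exists_quadratic R h2 (∑ c ∈ S, c)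
  have hpm : (∏ c ∈ S, (X - C c)).Monic := monic_prod_X_sub_C (fun c => c) S
  have hm : (π * ∏ c ∈ S, (X - C c)).Monic := h3.mul hpm
  have hd : (π * ∏ c ∈ S, (X - C c)).natDegree = n := by
    rw [h3.natDegree_mul hpm, natDegree_finset_prod_X_sub_C_eq_card, h5, hS]
    omega
  have hnc : (π * ∏ c ∈ S, (X - C c)).nextCoeff = 0 := by
    rw [Monic.nextCoeff_mul h3 hpm, h6, prod_X_sub_C_nextCoeff (fun c => c), add_neg_cancel]
  exact ⟨_, S, π, h4, h5, (eq_P (by omega) hm hd hnc).symm⟩

end ff

end Pool.Agent.Helper313SN
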