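import Pool.Agent.Helper313SN.Crt
import Pool.Agent.Helper313LB.Prime

/-!
# Small generators of extensions with full symmetric Galois group
-/

set_option autoImplicit false
set_option linter.all false

open Module NumberField IntermediateField Polynomial
open scoped Classical

namespace Pool.Agent.Helper313SN

open Pool.Agent.Helper313LB

section fib

variable {F Ω : Type} [Field F] [NumberField F] [Field Ω] [CharZero Ω] [Algebra F Ω]
  [IsAlgClosed Ω]

variable {n : ℕ} (hn : 2 ≤ n) (L : IntermediateField F Ω) (hL : finrank F L = n) [NumberField L]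
  (hfull : Full L)
include hn hL hfull

theorem top_of_ne {x : L} (hx : Algebra.trace F L x = 0) (hx0 : x ≠ 0) :
    F⟮x⟯ = (⊤ : IntermediateField F L) := by
  haveI : FiniteDimensional F L := FiniteDimensional.of_finrank_pos (by omega)
  apply hfull.adjoin_eq_top
  intro h
  rw [mem_bot] at h
  obtain ⟨c, rfl⟩ := h
  rw [Algebra.trace_algebraMap, hL, nsmul_eq_mul] at hx
  have : (n : F) ≠ 0 := by exact_mod_cast (by omega : n ≠ 0)
  have hc : c = 0 := (mul_eq_zero.1 hx).resolve_left this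
  exact hx0 (by rw [hc, map_zero])

theorem trace_nextCoeff {x : L} (hx : F⟮x⟯ = (⊤ : IntermediateField F L)) :
    Algebra.trace F L x = -(minpoly F x).nextCoeff := by
  haveI : FiniteDimensional F L := FiniteDimensional.of_finrank_pos (by omega)
  have hxF : IsIntegral F x := Algebra.IsIntegral.isIntegral x
  have htop : Algebra.adjoin F {x} = ⊤ := by
    rw [← adjoin_simple_toSubalgebra_of_isAlgebraic hxF.isAlgebraic, hx, top_toSubalgebra]
  have h := PowerBasis.trace_gen_eq_nextCoeff_minpoly (PowerBasis.ofAdjoinEqTop hxF htop)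
  rw [PowerBasis.ofAdjoinEqTop_gen] at h
  exact h

theorem house_iff (x : L) {R : ℝ} (hR : 0 ≤ R) :
    house x ≤ R ↔ ∀ z ∈ (minpoly ℚ (x : Ω)).rootSet ℂ, ‖z‖ ≤ R := by
  have : IsScalarTower ℚ L Ω := IsScalarTower.of_algebraMap_eq' (Subsingleton.elim _ _)
  have h0 : minpoly ℚ (x : Ω) = minpoly ℚ x := minpoly.algebraMap_eq (algebraMap L Ω).injective x
  rw [h0, house, pi_norm_le_iff_of_nonneg hR,
    ← NumberField.Embeddings.range_eval_eq_rootSet_minpoly L ℂ x]
  constructor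
  · rintro h _ ⟨φ, rfl⟩
    exact h φ
  · intro h φ
    exact h _ ⟨φ, rfl⟩

theorem adjoin_coe (x : L) : F⟮(x : Ω)⟯ = L ↔ F⟮x⟯ = (⊤ : IntermediateField F L) := by
  rw [← lift_adjoin_simple]
  constructor
  · intro h
    apply lift_injective L
    rw [h, lift_top]
  · intro h
    rw [h, lift_top]

/-- the elements of `S` which generate `L` -/
theorem fib_eq {R : ℝ} (hR : 0 ≤ R) :
    {α | α ∈ S F Ω n R ∧ F⟮α⟯ = L} =
      Subtype.val '' {x : L | (x ∈ W F L ∧ house x ≤ R) ∧ x ≠ 0} := by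
  haveI : FiniteDimensional F L := FiniteDimensional.of_finrank_pos (by omega)
  ext α
  constructor
  · rintro ⟨⟨h1, h2, h3, h4⟩, h5⟩
    have hα : α ∈ L := by
      rw [← h5]
      exact mem_adjoin_simple_self F α
    have h6 := (adjoin_coe hn L hL hfull ⟨α, hα⟩).1 h5
    refine ⟨⟨α, hα⟩, ⟨⟨⟨(isIntegral_algebraMap_iff (algebraMap L Ω).injective).1 h1, ?_⟩, ?_⟩, ?_⟩,
      rfl⟩
    · rw [trace_nextCoeff hn L hL hfull h6,
        ← (minpoly.algebraMap_eq (algebraMap L Ω).injective (⟨α, hα⟩ : L) :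
          minpoly F (algebraMap L Ω ⟨α, hα⟩) = _)]
      change -(minpoly F α).nextCoeff = 0
      rw [h3, neg_zero]
    · exact (house_iff hn L hL hfull _ hR).2 h4
    · intro h
      have h7 : α = 0 := congrArg Subtype.val h
      rw [h7, minpoly.zero, natDegree_X] at h2
      omega
  · rintro ⟨x, ⟨⟨⟨h1, h2⟩, h3⟩, h4⟩, rfl⟩
    have h5 := top_of_ne hn L hL hfull h2 h4
    have h6 := (adjoin_coe hn L hL hfull x).2 h5
    refine ⟨⟨(isIntegral_algebraMap_iff (algebraMap L Ω).injective).2 h1, ?_, ?_,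
      (house_iff hn L hL hfull x hR).1 h3⟩, h6⟩
    · have h7 : IsIntegral F (x : Ω) :=
        (Algebra.IsIntegral.isIntegral (R := F) x).map (L.val)
      rw [← IntermediateField.adjoin.finrank h7, h6, hL]
    · rw [trace_nextCoeff hn L hL hfull h5] at h2
      have h8 : minpoly F (x : Ω) = minpoly F x :=
        minpoly.algebraMap_eq (algebraMap L Ω).injective x
      rw [h8]
      exact neg_eq_zero.1 h2

theorem fib_ncard {R : ℝ} (hR : 0 ≤ R) :
    {α | α ∈ S F Ω n R ∧ F⟮α⟯ = L}.ncard + 1 = {x : L | x ∈ W F L ∧ house x ≤ R}.ncard := by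
  have hf := finite_W F L R
  have h0 : (0 : L) ∈ {x : L | x ∈ W F L ∧ house x ≤ R} := by
    refine ⟨(W F L).zero_mem, ?_⟩
    rw [house, map_zero, norm_zero]
    exact hR
  have hd : {x : L | (x ∈ W F L ∧ house x ≤ R) ∧ x ≠ 0} =
      {x : L | x ∈ W F L ∧ house x ≤ R} \ {0} := rfl
  rw [fib_eq hn L hL hfull hR, hd, Set.ncard_image_of_injective _ Subtype.val_injective,
    Set.ncard_sdiff_singleton_add_one h0 hf]

/-- the elements of `S` which generate `L`, at two scales -/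
theorem fib_two_scales {R ρ : ℝ} (hρ : 0 < ρ) (hR : 0 ≤ R) :
    ({α | α ∈ S F Ω n R ∧ F⟮α⟯ = L}.ncard : ℝ) ≤
      (1 + 2 * R / ρ) ^ (finrank ℚ F * (n - 1)) *
        (({α | α ∈ S F Ω n ρ ∧ F⟮α⟯ = L}.ncard : ℝ) + 1) := by
  have h1 := fib_ncard hn L hL hfull hR
  have h2 := fib_ncard hn L hL hfull hρ.le
  have h3 := W_two_scales F L hρ hR
  rw [← h1, ← h2, hL] at h3
  push_cast at h3
  linarith

end fib

section cnt

variable (F Ω : Type) [Field F] [NumberField F] [Field Ω] [CharZero Ω] [Algebra F Ω]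

/-- the generators of extensions with full symmetric group -/
def SF (n : ℕ) (R : ℝ) : Set Ω := {α | α ∈ S F Ω n R ∧ Full F⟮α⟯}

/-- the extensions generated by the elements of `SF` -/
def EF (n : ℕ) (R : ℝ) : Set (IntermediateField F Ω) := (fun α => F⟮α⟯) '' SF F Ω n R

variable {F Ω}

theorem EF_sub {n : ℕ} {R : ℝ} : EF F Ω n R ⊆ Ext F Ω n R := by
  rintro _ ⟨α, hα, rfl⟩
  exact ⟨α, hα.1, rfl⟩

theorem EF_full {n : ℕ} {R : ℝ} {L : IntermediateField F Ω} (hL : L ∈ EF F Ω n R) : Full L := by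
  obtain ⟨α, hα, rfl⟩ := hL
  exact hα.2

variable [IsAlgClosed Ω]

theorem SF_le {n : ℕ} (hn : 2 ≤ n) {H ρ : ℝ} (hρ : 1 ≤ ρ) (hH : ρ ≤ H) :
    ((SF F Ω n H).ncard : ℝ) ≤ (1 + 2 * H / ρ) ^ (finrank ℚ F * (n - 1)) *
      (((S F Ω n ρ).ncard : ℝ) + ((EF F Ω n H).ncard : ℝ)) := by
  have hf : (SF F Ω n H).Finite :=
    (S_finite_and_card F Ω hn (R := H) (hρ.trans hH)).1.subset fun _ h => h.1
  have hfρ := (S_finite_and_card F Ω hn (R := ρ) hρ).1
  have hfE : (EF F Ω n H).Finite := hf.image _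
  set A := hf.toFinset with hA
  set Aρ := hfρ.toFinset with hAρ
  set E := hfE.toFinset with hE
  have e1 : (SF F Ω n H).ncard = A.card := Set.ncard_eq_toFinset_card _ hf
  have e2 : (S F Ω n ρ).ncard = Aρ.card := Set.ncard_eq_toFinset_card _ hfρ
  have e3 : (EF F Ω n H).ncard = E.card := Set.ncard_eq_toFinset_card _ hfE
  have hmA : ∀ α, α ∈ A ↔ α ∈ SF F Ω n H := fun α => by rw [hA, Set.Finite.mem_toFinset]
  have hmAρ : ∀ α, α ∈ Aρ ↔ α ∈ S F Ω n ρ := fun α => by rw [hAρ, Set.Finite.mem_toFinset]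
  have hmE : ∀ L, L ∈ E ↔ L ∈ EF F Ω n H := fun α => by rw [hE, Set.Finite.mem_toFinset]
  have h1 : A.card = ∑ L ∈ E, (A.filter fun α => F⟮α⟯ = L).card :=
    Finset.card_eq_sum_card_fiberwise (fun α hα => by
      rw [Finset.mem_coe, hmE]
      exact ⟨α, (hmA α).1 (Finset.mem_coe.1 hα), rfl⟩)
  have h2 : ∑ L ∈ E, (Aρ.filter fun α => F⟮α⟯ = L).card ≤ Aρ.card := by
    rw [← Finset.card_biUnion]
    · exact Finset.card_le_card (Finset.biUnion_subset.2 fun L _ => Finset.filter_subset _ _)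
    · intro L _ L' _ hne
      rw [Function.onFun, Finset.disjoint_left]
      intro α h3 h4
      rw [Finset.mem_filter] at h3 h4
      exact hne (h3.2.symm.trans h4.2)
  have h3 : ∀ L ∈ E, ((A.filter fun α => F⟮α⟯ = L).card : ℝ) ≤
      (1 + 2 * H / ρ) ^ (finrank ℚ F * (n - 1)) *
        (((Aρ.filter fun α => F⟮α⟯ = L).card : ℝ) + 1) := by
    intro L hL
    have hLE := (hmE L).1 hL
    have hfin := Ext_finrank (EF_sub hLE)
    have hfd : FiniteDimensional F L := FiniteDimensional.of_finrank_pos (by omega)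
    have hnf := nf_of_fd L
    have h4 := fib_two_scales hn L hfin (EF_full hLE) (R := H) (ρ := ρ) (by linarith) (by linarith)
    have h5 : {α | α ∈ S F Ω n H ∧ F⟮α⟯ = L} =
        ((A.filter fun α => F⟮α⟯ = L : Finset Ω) : Set Ω) := by
      ext α
      simp only [Set.mem_setOf_eq, Finset.coe_filter, hmA]
      constructor
      · rintro ⟨h6, h7⟩
        refine ⟨⟨h6, ?_⟩, h7⟩
        rw [h7]
        exact EF_full hLE
      · rintro ⟨h6, h7⟩
        exact ⟨h6.1, h7⟩
    have h6 : {α | α ∈ S F Ω n ρ ∧ F⟮α⟯ = L} =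
        ((Aρ.filter fun α => F⟮α⟯ = L : Finset Ω) : Set Ω) := by
      ext α
      simp [hmAρ]
    rw [h5, h6, Set.ncard_coe_finset, Set.ncard_coe_finset] at h4
    exact h4
  have h2' : ∑ L ∈ E, ((Aρ.filter fun α => F⟮α⟯ = L).card : ℝ) ≤ (Aρ.card : ℝ) := by
    exact_mod_cast h2
  rw [e1, e2, e3, h1]
  push_cast
  have hM : 0 ≤ (1 + 2 * H / ρ) ^ (finrank ℚ F * (n - 1)) := by
    have : 0 ≤ 2 * H / ρ := div_nonneg (by linarith) (by linarith)
    positivity
  calc ∑ L ∈ E, ((A.filter fun α => F⟮α⟯ = L).card : ℝ)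
      ≤ ∑ L ∈ E, (1 + 2 * H / ρ) ^ (finrank ℚ F * (n - 1)) *
        (((Aρ.filter fun α => F⟮α⟯ = L).card : ℝ) + 1) := Finset.sum_le_sum h3
    _ = (1 + 2 * H / ρ) ^ (finrank ℚ F * (n - 1)) *
        (∑ L ∈ E, ((Aρ.filter fun α => F⟮α⟯ = L).card : ℝ) + E.card) := by
      rw [← Finset.mul_sum, Finset.sum_add_distrib, Finset.sum_const, nsmul_eq_mul, mul_one]
    _ ≤ _ := mul_le_mul_of_nonneg_left (by linarith) hM

end cnt

end Pool.Agent.Helper313SN
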