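import Pool.Agent.Helper313SN.Surj
import Pool.Agent.Helper313LB.Fib

/-!
# Extensions with full symmetric Galois group
-/

set_option autoImplicit false
set_option linter.all false

open Module Polynomial NumberField IntermediateField

namespace Pool.Agent.Helper313SN

open Pool.Agent.Helper313LB

/-- All permutations of the embeddings are given by automorphisms. -/
def Full {F Ω : Type} [Field F] [Field Ω] [Algebra F Ω] (L : IntermediateField F Ω) : Prop :=
  ∀ π : Equiv.Perm (L →ₐ[F] Ω), ∃ σ : Ω ≃ₐ[F] Ω, ∀ φ : L →ₐ[F] Ω, σ.toAlgHom.comp φ = π φ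

section prim

variable {F Ω : Type} [Field F] [CharZero F] [Field Ω] [Algebra F Ω] [IsAlgClosed Ω]

/-- all elements outside `F` are primitive elements -/
theorem Full.adjoin_eq_top {L : IntermediateField F Ω} [FiniteDimensional F L] (hL : Full L)
    {x : L} (hx : x ∉ (⊥ : IntermediateField F L)) : F⟮x⟯ = (⊤ : IntermediateField F L) := by
  classical
  rw [Field.primitive_element_iff_algHom_eq_of_eval' F Ω (fun _ => IsAlgClosed.splits _)]
  intro φ φ' h
  by_contra hne
  apply hx
  have hmain : ∀ ψ ψ' : L →ₐ[F] Ω, ψ x = ψ' x := by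
    intro ψ ψ'
    by_cases hψ : ψ = ψ'
    · rw [hψ]
    -- a permutation which maps `φ` to `ψ` and `φ'` to `ψ'`
    obtain ⟨π, h1, h2⟩ : ∃ π : Equiv.Perm (L →ₐ[F] Ω), π φ = ψ ∧ π φ' = ψ' := by
      refine ⟨Equiv.swap ψ' (Equiv.swap φ ψ φ') * Equiv.swap φ ψ, ?_, ?_⟩
      · rw [Equiv.Perm.mul_apply, Equiv.swap_apply_left]
        refine Equiv.swap_apply_of_ne_of_ne hψ ?_
        intro h3
        apply hne
        have h4 : Equiv.swap φ ψ φ = Equiv.swap φ ψ φ' := by
          rw [Equiv.swap_apply_left]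
          exact h3
        exact (Equiv.swap φ ψ).injective h4
      · rw [Equiv.Perm.mul_apply, Equiv.swap_apply_right]
    obtain ⟨σ, hσ⟩ := hL π
    have e1 : ψ x = σ (φ x) := by
      rw [← h1, ← hσ φ]
      rfl
    have e2 : ψ' x = σ (φ' x) := by
      rw [← h2, ← hσ φ']
      rfl
    have h' : φ x = φ' x := h
    rw [e1, e2, h']
  -- the minimal polynomial has one root
  have h1 : (minpoly F x).rootSet Ω = {algebraMap L Ω x} := by
    rw [← (Algebra.IsAlgebraic.of_finite F L).range_eval_eq_rootSet_minpoly Ω x]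
    ext y
    simp only [Set.mem_range, Set.mem_singleton_iff]
    constructor
    · rintro ⟨ψ, rfl⟩
      exact hmain ψ L.val
    · rintro rfl
      exact ⟨L.val, rfl⟩
  have hsep : (minpoly F x).Separable := Algebra.IsSeparable.isSeparable F x
  have h2 := card_rootSet_eq_natDegree hsep (IsAlgClosed.splits ((minpoly F x).map (algebraMap F Ω)))
  have h3 : (minpoly F x).natDegree = 1 := by
    rw [← h2, ← Nat.card_eq_fintype_card, Nat.card_congr (Equiv.setCongr h1)]
    simp
  have h4 : (minpoly F x).degree = 1 := by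
    rw [degree_eq_natDegree (minpoly.ne_zero_of_finite F x), h3]
    rfl
  exact minpoly.mem_range_of_degree_eq_one F x h4

end prim

section gen

variable {F Ω : Type} [Field F] [NumberField F] [Field Ω] [CharZero Ω] [Algebra F Ω]
  [IsAlgClosed Ω] [Normal F Ω]

theorem full_of_surj {f : (𝓞 F)[X]} (hf : f.Monic)
    (hirr : Irreducible (f.map (algebraMap (𝓞 F) F)))
    (hsurj : ∀ (E : Type) [Field E] [NumberField E] [Algebra F E] [IsGalois F E],
      ((f.map (algebraMap (𝓞 F) F)).map (algebraMap F E)).Splits →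
      Function.Surjective (MulAction.toPermHom (E ≃ₐ[F] E)
      ((f.map (algebraMap (𝓞 F) F)).rootSet E)))
    {α : Ω} (hα : minpoly F α = f.map (algebraMap (𝓞 F) F)) : Full F⟮α⟯ := by
  classical
  set p : F[X] := f.map (algebraMap (𝓞 F) F) with hp
  have hpm : p.Monic := hf.map _
  have hint : IsIntegral F α := by
    by_contra h
    rw [minpoly.eq_zero h] at hα
    exact hirr.ne_zero hα.symm
  have hsplΩ : (p.map (algebraMap F Ω)).Splits := IsAlgClosed.splits _
  let E : IntermediateField F Ω := IntermediateField.adjoin F (p.rootSet Ω)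
  have hE : p.IsSplittingField F E := IntermediateField.adjoin_rootSet_isSplittingField hsplΩ
  have hfdE : FiniteDimensional F E := IsSplittingField.finiteDimensional E p
  have hnfE : NumberField E := nf_of_fd E
  have hnorm : Normal F E := Normal.of_isSplittingField p
  have hgal : IsGalois F E := ⟨⟩
  have hsur := hsurj E (IsSplittingField.splits E p)
  -- the roots
  have hroot : ∀ φ : F⟮α⟯ →ₐ[F] Ω, φ (AdjoinSimple.gen F α) ∈ p.rootSet Ω := by
    intro φ
    rw [mem_rootSet]
    refine ⟨hpm.ne_zero, ?_⟩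
    rw [aeval_algHom_apply, ← hα]
    have := minpoly.aeval F (AdjoinSimple.gen F α)
    rw [minpoly_gen] at this
    rw [this, map_zero]
  have hmem : ∀ y ∈ p.rootSet Ω, y ∈ E := fun y hy => IntermediateField.subset_adjoin F _ hy
  let Φ : (F⟮α⟯ →ₐ[F] Ω) → p.rootSet E := fun φ =>
    ⟨⟨φ (AdjoinSimple.gen F α), hmem _ (hroot φ)⟩, by
      rw [mem_rootSet]
      refine ⟨hpm.ne_zero, ?_⟩
      apply (algebraMap E Ω).injective
      rw [map_zero, ← aeval_algebraMap_apply]
      exact aeval_eq_zero_of_mem_rootSet (hroot φ)⟩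
  have hΦ : ∀ φ, algebraMap E Ω (Φ φ : E) = φ (AdjoinSimple.gen F α) := fun φ => rfl
  have hext : ∀ φ ψ : F⟮α⟯ →ₐ[F] Ω, φ (AdjoinSimple.gen F α) = ψ (AdjoinSimple.gen F α) → φ = ψ := by
    intro φ ψ h
    exact (adjoin.powerBasis hint).algHom_ext (by rw [adjoin.powerBasis_gen]; exact h)
  have hinj : Function.Injective Φ := by
    intro φ ψ h
    apply hext
    rw [← hΦ, ← hΦ, h]
  have hsurΦ : Function.Surjective Φ := by
    intro θ
    have h1 : aeval (algebraMap E Ω (θ : E)) (minpoly F α) = 0 := by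
      rw [aeval_algebraMap_apply, hα, aeval_eq_zero_of_mem_rootSet θ.2, map_zero]
    have h2 : algebraMap E Ω (θ : E) ∈ (minpoly F α).aroots Ω := by
      rw [mem_aroots]
      exact ⟨minpoly.ne_zero hint, h1⟩
    refine ⟨(algHomAdjoinIntegralEquiv F hint).symm ⟨_, h2⟩, ?_⟩
    apply Subtype.ext
    apply (algebraMap E Ω).injective
    rw [hΦ, algHomAdjoinIntegralEquiv_symm_apply_gen]
  let e : (F⟮α⟯ →ₐ[F] Ω) ≃ p.rootSet E := Equiv.ofBijective Φ ⟨hinj, hsurΦ⟩
  intro π
  obtain ⟨σ, hσ⟩ := hsur (e.permCongr π)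
  refine ⟨σ.liftNormal Ω, fun φ => ?_⟩
  apply hext
  have h1 : (MulAction.toPermHom (E ≃ₐ[F] E) (p.rootSet E) σ) (Φ φ) = Φ (π φ) := by
    rw [hσ, Equiv.permCongr_apply]
    change e (π (e.symm (e φ))) = _
    rw [Equiv.symm_apply_apply]
    rfl
  have h2 : (σ : E ≃ₐ[F] E) (Φ φ : E) = (Φ (π φ) : E) := by
    rw [← h1]
    rfl
  have h3 : (σ.liftNormal Ω) (algebraMap E Ω (Φ φ : E)) = algebraMap E Ω (Φ (π φ) : E) := by
    rw [σ.liftNormal_commutes, h2]
  rw [hΦ, hΦ] at h3
  exact h3

end gen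

end Pool.Agent.Helper313SN
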