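import Pool.Agent.Helper313SN.Base
import Pool.Agent.Helper313SN.Sym
import Pool.Agent.Helper313LB.Low

/-!
# A congruence class of polynomials with full symmetric Galois groups
-/

set_option autoImplicit false
set_option linter.all false

open Module Polynomial NumberField IntermediateField Function
open scoped Classical

namespace Pool.Agent.Helper313SN

open Pool.Agent.Helper313LB

variable (F : Type) [Field F] [NumberField F]

/-- a maximal ideal above a rational prime -/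
theorem exists_above {ℓ : ℕ} (hℓ : ℓ.Prime) : ∃ P : Ideal (𝓞 F), P.IsMaximal ∧ (ℓ : 𝓞 F) ∈ P := by
  have hprime : (Ideal.span {(ℓ : ℤ)}).IsPrime :=
    (Ideal.span_singleton_prime (by exact_mod_cast hℓ.ne_zero)).2 (Nat.prime_iff_prime_int.1 hℓ)
  have hker : RingHom.ker (algebraMap ℤ (𝓞 F)) ≤ Ideal.span {(ℓ : ℤ)} := by
    rw [(RingHom.injective_iff_ker_eq_bot _).1 (FaithfulSMul.algebraMap_injective ℤ (𝓞 F))]
    exact bot_le
  obtain ⟨Q, h1, h2⟩ := Ideal.exists_ideal_over_prime_of_isIntegral_of_isDomain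
    (Ideal.span {(ℓ : ℤ)}) (S := 𝓞 F) hker
  have h3 : (ℓ : 𝓞 F) ∈ Q := by
    have h4 : (ℓ : ℤ) ∈ Q.comap (algebraMap ℤ (𝓞 F)) := by
      rw [h2]
      exact Ideal.mem_span_singleton_self _
    simpa using h4
  have h5 : Q ≠ ⊥ := by
    rintro rfl
    rw [Ideal.mem_bot] at h3
    exact hℓ.ne_zero (by exact_mod_cast h3)
  exact ⟨Q, h1.isMaximal h5, h3⟩

theorem natCast_not_mem {P : Ideal (𝓞 F)} (hP : P ≠ ⊤) {ℓ m : ℕ} (h : Nat.Coprime ℓ m)
    (hℓ : (ℓ : 𝓞 F) ∈ P) : (m : 𝓞 F) ∉ P := by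
  intro hm
  apply hP
  rw [Ideal.eq_top_iff_one]
  have h1 : IsCoprime (ℓ : ℤ) (m : ℤ) := Nat.isCoprime_iff_coprime.2 h
  obtain ⟨a, b, hab⟩ := h1
  have h2 : (a : 𝓞 F) * (ℓ : 𝓞 F) + (b : 𝓞 F) * (m : 𝓞 F) = 1 := by
    have := congrArg (fun z : ℤ => (z : 𝓞 F)) hab
    push_cast at this
    exact this
  rw [← h2]
  exact P.add_mem (P.mul_mem_left _ hℓ) (P.mul_mem_left _ hm)

theorem exists_primes (N : ℕ) : ∃ (P1 P2 P3 : Ideal (𝓞 F)) (q : ℕ), P1.IsMaximal ∧ P2.IsMaximal ∧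
    P3.IsMaximal ∧ P1 ≠ P2 ∧ P1 ≠ P3 ∧ P2 ≠ P3 ∧ (2 : 𝓞 F ⧸ P3) ≠ 0 ∧ N ≤ Nat.card (𝓞 F ⧸ P3) ∧
    1 ≤ q ∧ (q : 𝓞 F) ∈ P1 ^ 2 ∧ (q : 𝓞 F) ∈ P2 ∧ (q : 𝓞 F) ∈ P3 := by
  obtain ⟨ℓ, hℓN, hℓ⟩ := Nat.exists_infinite_primes (N + 4)
  obtain ⟨P1, h1, h1'⟩ := exists_above F Nat.prime_two
  obtain ⟨P2, h2, h2'⟩ := exists_above F Nat.prime_three
  obtain ⟨P3, h3, h3'⟩ := exists_above F hℓ
  have c23 : Nat.Coprime 3 2 := by norm_num
  have c2 : Nat.Coprime ℓ 2 := (Nat.coprime_primes hℓ Nat.prime_two).2 (by omega)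
  have c3 : Nat.Coprime ℓ 3 := (Nat.coprime_primes hℓ Nat.prime_three).2 (by omega)
  refine ⟨P1, P2, P3, 2 ^ 2 * 3 * ℓ, h1, h2, h3, ?_, ?_, ?_, ?_, ?_, ?_, ?_, ?_, ?_⟩
  · rintro rfl
    exact natCast_not_mem F h2.ne_top c23 h2' h1'
  · rintro rfl
    exact natCast_not_mem F h3.ne_top c2 h3' h1'
  · rintro rfl
    exact natCast_not_mem F h3.ne_top c3 h3' h2'
  · intro h
    apply natCast_not_mem F h3.ne_top c2 h3'
    rw [← Ideal.Quotient.eq_zero_iff_mem]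
    push_cast
    exact_mod_cast h
  · have hb3 : P3 ≠ ⊥ := Ring.ne_bot_of_isMaximal_of_not_isField h3 (RingOfIntegers.not_isField F)
    haveI : Finite (𝓞 F ⧸ P3) := Ideal.finiteQuotientOfFreeOfNeBot _ hb3
    have hinj : Function.Injective fun i : Fin ℓ => Ideal.Quotient.mk P3 ((i : ℕ) : 𝓞 F) := by
      intro i j hij
      by_contra hne
      have hne' : (i : ℕ) ≠ (j : ℕ) := fun h => hne (Fin.ext h)
      wlog hlt : (j : ℕ) < (i : ℕ) generalizing i j with H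
      · exact H hij.symm (fun h => hne h.symm) hne'.symm (by omega)
      have h4 : ((i : ℕ) : 𝓞 F) - ((j : ℕ) : 𝓞 F) ∈ P3 := Ideal.Quotient.eq.1 hij
      rw [← Nat.cast_sub hlt.le] at h4
      refine natCast_not_mem F h3.ne_top ?_ h3' h4
      refine (Nat.Prime.coprime_iff_not_dvd hℓ).2 ?_
      intro hd
      have := Nat.le_of_dvd (by omega) hd
      have := i.2
      omega
    have h5 := Nat.card_le_card_of_injective _ hinj
    rw [Nat.card_fin] at h5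
    omega
  · have := hℓ.pos
    omega
  · have e : ((2 ^ 2 * 3 * ℓ : ℕ) : 𝓞 F) = ((2 : ℕ) : 𝓞 F) ^ 2 * (3 * ℓ) := by
      push_cast
      ring
    rw [e]
    exact Ideal.mul_mem_right _ _ (Ideal.pow_mem_pow h1' 2)
  · have e : ((2 ^ 2 * 3 * ℓ : ℕ) : 𝓞 F) = ((3 : ℕ) : 𝓞 F) * (2 ^ 2 * ℓ) := by
      push_cast
      ring
    rw [e]
    exact Ideal.mul_mem_right _ _ h2'
  · have e : ((2 ^ 2 * 3 * ℓ : ℕ) : 𝓞 F) = (ℓ : 𝓞 F) * (2 ^ 2 * 3) := by
      push_cast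
      ring
    rw [e]
    exact Ideal.mul_mem_right _ _ h3'

/-- the Chinese remainder theorem for three maximal ideals -/
theorem crt3 {P1 P2 P3 : Ideal (𝓞 F)} (h1 : P1.IsMaximal) (h2 : P2.IsMaximal) (h3 : P3.IsMaximal)
    (h12 : P1 ≠ P2) (h13 : P1 ≠ P3) (h23 : P2 ≠ P3) (x1 x2 x3 : 𝓞 F) :
    ∃ y, y - x1 ∈ P1 ^ 2 ∧ y - x2 ∈ P2 ∧ y - x3 ∈ P3 := by
  have c12 : IsCoprime (P1 ^ 2) P2 := IsCoprime.pow_left (Ideal.isCoprime_of_isMaximal h12)
  have c13 : IsCoprime (P1 ^ 2) P3 := IsCoprime.pow_left (Ideal.isCoprime_of_isMaximal h13)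
  have c23 : IsCoprime P2 P3 := Ideal.isCoprime_of_isMaximal h23
  let I : Fin 3 → Ideal (𝓞 F) := ![P1 ^ 2, P2, P3]
  have hI : Pairwise (IsCoprime on I) := by
    intro i j hij
    fin_cases i <;> fin_cases j <;>
      first
        | exact absurd rfl hij
        | exact c12
        | exact c13
        | exact c23
        | exact c12.symm
        | exact c13.symm
        | exact c23.symm
  obtain ⟨y, hy⟩ := Ideal.exists_forall_sub_mem_ideal hI ![x1, x2, x3]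
  exact ⟨y, hy 0, hy 1, hy 2⟩

variable (Ω : Type) [Field Ω] [CharZero Ω] [Algebra F Ω] [IsAlgClosed Ω] [Normal F Ω]

/-- a congruence class of polynomials with full symmetric Galois groups -/
theorem exists_base {n : ℕ} (hn : 3 ≤ n) : ∃ (a : Fin (n - 1) → 𝓞 F) (q : ℕ), 1 ≤ q ∧
    ∀ b : Fin (n - 1) → 𝓞 F, Irreducible (P n fun j => ((a j + q * b j : 𝓞 F) : F)) ∧
      ∀ α : Ω, minpoly F α = P n (fun j => ((a j + q * b j : 𝓞 F) : F)) → Full F⟮α⟯ := by
  obtain ⟨P1, P2, P3, q, h1, h2, h3, h12, h13, h23, htwo, hcard, hq, hq1, hq2, hq3⟩ :=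
    exists_primes F n
  have hb1 : P1 ≠ ⊥ := Ring.ne_bot_of_isMaximal_of_not_isField h1 (RingOfIntegers.not_isField F)
  have hb2 : P2 ≠ ⊥ := Ring.ne_bot_of_isMaximal_of_not_isField h2 (RingOfIntegers.not_isField F)
  have hb3 : P3 ≠ ⊥ := Ring.ne_bot_of_isMaximal_of_not_isField h3 (RingOfIntegers.not_isField F)
  haveI : Finite (𝓞 F ⧸ P2) := Ideal.finiteQuotientOfFreeOfNeBot _ hb2
  haveI : Finite (𝓞 F ⧸ P3) := Ideal.finiteQuotientOfFreeOfNeBot _ hb3
  letI : Field (𝓞 F ⧸ P2) := Ideal.Quotient.field P2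
  letI : Field (𝓞 F ⧸ P3) := Ideal.Quotient.field P3
  obtain ⟨π, hπ, hπ2⟩ := Ideal.exists_mem_pow_notMem_pow_succ P1 hb1 h1.ne_top 1
  rw [pow_one] at hπ
  obtain ⟨a2, c2, π2, i2, d2, e2⟩ := exists_red2 (𝓞 F ⧸ P2) hn
  obtain ⟨a3, S3, π3, i3, d3, e3⟩ := exists_red3 (𝓞 F ⧸ P3) hn htwo hcard
  have hex : ∀ j : Fin (n - 1), ∃ y : 𝓞 F, y - (if (j : ℕ) = 0 then π else 0) ∈ P1 ^ 2 ∧
      Ideal.Quotient.mk P2 y = a2 j ∧ Ideal.Quotient.mk P3 y = a3 j := by
    intro j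
    obtain ⟨x2, hx2⟩ := Ideal.Quotient.mk_surjective (a2 j)
    obtain ⟨x3, hx3⟩ := Ideal.Quotient.mk_surjective (a3 j)
    obtain ⟨y, y1, y2, y3⟩ := crt3 F h1 h2 h3 h12 h13 h23 (if (j : ℕ) = 0 then π else 0) x2 x3
    exact ⟨y, y1, by rw [← hx2]; exact Ideal.Quotient.eq.2 y2, by
      rw [← hx3]; exact Ideal.Quotient.eq.2 y3⟩
  choose a ha1 ha2 ha3 using hex
  refine ⟨a, q, hq, fun b => ?_⟩
  set A : Fin (n - 1) → 𝓞 F := fun j => a j + q * b j with hA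
  have hA1 : ∀ j, A j - (if (j : ℕ) = 0 then π else 0) ∈ P1 ^ 2 := by
    intro j
    have e : A j - (if (j : ℕ) = 0 then π else 0) =
        (a j - (if (j : ℕ) = 0 then π else 0)) + q * b j := by
      rw [hA]; ring
    rw [e]
    exact Ideal.add_mem _ (ha1 j) (Ideal.mul_mem_right _ _ hq1)
  have hA2 : (Ideal.Quotient.mk P2) ∘ A = a2 := by
    funext j
    rw [Function.comp, hA, map_add, map_mul, ha2, Ideal.Quotient.eq_zero_iff_mem.2 hq2, zero_mul,
      add_zero]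
  have hA3 : (Ideal.Quotient.mk P3) ∘ A = a3 := by
    funext j
    rw [Function.comp, hA, map_add, map_mul, ha3, Ideal.Quotient.eq_zero_iff_mem.2 hq3, zero_mul,
      add_zero]
  have hmon : (P n A).Monic := P_monic _ (by omega)
  have hdeg : (P n A).natDegree = n := P_natDegree _ (by omega)
  have hP12 : P1 ^ 2 ≤ P1 := Ideal.pow_le_self (by norm_num)
  have hE : (P n A).IsEisensteinAt P1 := by
    refine ⟨?_, ?_, ?_⟩
    · rw [hmon.leadingCoeff]
      exact fun h => h1.ne_top ((Ideal.eq_top_iff_one P1).2 h)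
    · intro m hm
      rw [hdeg] at hm
      rcases Nat.lt_or_ge m (n - 1) with h | h
      · have h4 := P_coeff A ⟨m, h⟩
        rw [show ((⟨m, h⟩ : Fin (n - 1)) : ℕ) = m from rfl] at h4
        rw [h4]
        have h5 := hP12 (hA1 ⟨m, h⟩)
        have h6 : (if m = 0 then π else 0) ∈ P1 := by
          split_ifs
          · exact hπ
          · exact P1.zero_mem
        have := P1.add_mem h5 h6
        simpa using this
      · have : m = n - 1 := by omega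
        rw [this, P_coeff_pred _ (by omega)]
        exact P1.zero_mem
    · have h4 := P_coeff A ⟨0, by omega⟩
      rw [show ((⟨0, by omega⟩ : Fin (n - 1)) : ℕ) = 0 from rfl] at h4
      rw [h4]
      intro h
      apply hπ2
      have h5 := hA1 ⟨0, by omega⟩
      simp only [if_true] at h5
      exact (Submodule.sub_mem_iff_right _ h).1 h5
  have hirr : Irreducible ((P n A).map (algebraMap (𝓞 F) F)) := by
    have h4 := hE.irreducible h1.isPrime hmon.isPrimitive (by rw [hdeg]; omega)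
    exact (hmon.irreducible_iff_irreducible_map_fraction_map (K := F)).1 h4
  have hmap : (P n A).map (algebraMap (𝓞 F) F) = P n fun j => ((a j + q * b j : 𝓞 F) : F) := by
    rw [P_map]
    rfl
  refine ⟨hmap ▸ hirr, fun α hα => ?_⟩
  refine full_of_surj (f := P n A) hmon hirr ?_ (by rw [hmap]; exact hα)
  intro E _ _ _ _ hspl
  have r2 : (P n A).map (Ideal.Quotient.mk P2) = (X - C c2) * π2 := by rw [P_map, hA2, e2]
  have r3 : (P n A).map (Ideal.Quotient.mk P3) = π3 * ∏ c ∈ S3, (X - C c) := by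
    rw [P_map, hA3, e3]
  exact surj_of P2 P3 hmon hirr i2 d2 r2 i3 d3 r3 E hspl

end Pool.Agent.Helper313SN
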