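import Pool.Agent.Helper313SN.Lower

/-!
# Extensions up to isomorphism
-/

set_option autoImplicit false
set_option linter.all false

open Module NumberField IntermediateField Polynomial Filter Topology
open scoped Classical

namespace Pool.Agent.Helper313SN

open Pool.Agent.Helper313LB

section iso

variable {F Ω : Type} [Field F] [CharZero F] [Field Ω] [Algebra F Ω] [IsAlgClosed Ω]

/-- an extension of degree `n` has at most `n` conjugates -/
theorem ncard_le_of_iso {n : ℕ} (hn : n ≠ 0) {A : Set (IntermediateField F Ω)} (hA : A.Finite)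
    (hdeg : ∀ L ∈ A, finrank F L = n) :
    A.ncard ≤ n * Nat.card (Quot fun L L' : A => Nonempty (L.1 ≃ₐ[F] L'.1)) := by
  haveI : Finite A := hA.to_subtype
  haveI := Fintype.ofFinite A
  let r : A → A → Prop := fun L L' => Nonempty (L.1 ≃ₐ[F] L'.1)
  haveI : Finite (Quot r) := Quot.finite r
  haveI := Fintype.ofFinite (Quot r)
  have heq : Equivalence r :=
    ⟨fun L => ⟨AlgEquiv.refl⟩, fun ⟨e⟩ => ⟨e.symm⟩, fun ⟨e⟩ ⟨e'⟩ => ⟨e.trans e'⟩⟩
  have h1 := Finset.card_le_mul_card_image_of_maps_to (f := Quot.mk r)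
    (s := (Finset.univ : Finset A)) (t := (Finset.univ : Finset (Quot r)))
    (fun _ _ => Finset.mem_univ _) n (by
      intro c _
      obtain ⟨L, rfl⟩ := Quot.exists_rep c
      have hfin := hdeg L.1 L.2
      haveI : FiniteDimensional F L.1 := FiniteDimensional.of_finrank_pos (by omega)
      have h2 : ∀ L' : A, Quot.mk r L' = Quot.mk r L →
          ∃ φ : L.1 →ₐ[F] Ω, φ.fieldRange = L'.1 := by
        intro L' h
        obtain ⟨e⟩ := (Equivalence.quot_mk_eq_iff heq _ _).1 h
        refine ⟨L'.1.val.comp e.symm.toAlgHom, ?_⟩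
        ext y
        rw [AlgHom.mem_fieldRange]
        constructor
        · rintro ⟨x, rfl⟩
          exact (e.symm x).2
        · intro hy
          exact ⟨e ⟨y, hy⟩, by
            change ((e.symm (e ⟨y, hy⟩) : L'.1) : Ω) = y
            rw [e.symm_apply_apply]⟩
      have h3 : (Finset.univ.filter fun L' : A => Quot.mk r L' = Quot.mk r L).card ≤
          (Finset.univ.image fun φ : L.1 →ₐ[F] Ω => φ.fieldRange).card := by
        rw [← Finset.card_image_of_injective
          (Finset.univ.filter fun L' : A => Quot.mk r L' = Quot.mk r L) Subtype.val_injective]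
        refine Finset.card_le_card fun M hM => ?_
        obtain ⟨L', hL', rfl⟩ := Finset.mem_image.1 hM
        obtain ⟨φ, hφ⟩ := h2 L' (Finset.mem_filter.1 hL').2
        exact Finset.mem_image.2 ⟨φ, Finset.mem_univ _, hφ⟩
      refine h3.trans (Finset.card_image_le.trans ?_)
      rw [Finset.card_univ, AlgHom.card F L.1 Ω, hfin])
  rw [Finset.card_univ, Finset.card_univ, ← Nat.card_eq_fintype_card,
    ← Nat.card_eq_fintype_card] at h1
  exact h1

end iso

section main

variable (F Ω : Type) [Field F] [NumberField F] [Field Ω] [CharZero Ω] [Algebra F Ω]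
  [IsAlgClosed Ω] [Normal F Ω]

theorem iso_lower {n : ℕ} (hn : 3 ≤ n) : ∃ c : ℝ, 0 < c ∧ ∀ᶠ X : ℝ in atTop,
    c * X ^ (1 / 2 + 1 / n : ℝ) ≤
      (Nat.card (Quot fun L L' : FullFld F Ω n X => Nonempty (L.1 ≃ₐ[F] L'.1)) : ℝ) := by
  obtain ⟨c, hc, h⟩ := full_lower F Ω hn
  have hn0 : (0 : ℝ) < n := by exact_mod_cast (by omega : 0 < n)
  refine ⟨c / n, by positivity, ?_⟩
  filter_upwards [h] with X hX
  have h1 := ncard_le_of_iso (F := F) (Ω := Ω) (n := n) (by omega) (finite_FullFld F Ω n X)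
    (fun L hL => hL.1)
  have h2 : ((FullFld F Ω n X).ncard : ℝ) ≤
      n * (Nat.card (Quot fun L L' : FullFld F Ω n X => Nonempty (L.1 ≃ₐ[F] L'.1)) : ℝ) := by
    exact_mod_cast h1
  rw [div_mul_eq_mul_div, div_le_iff₀ hn0, mul_comm (Nat.card _ : ℝ)]
  exact hX.trans h2

/-- with relative discriminants -/
theorem rel_lower {n : ℕ} (hn : 3 ≤ n) : ∃ c : ℝ, 0 < c ∧ ∀ᶠ X : ℝ in atTop,
    c * X ^ (1 / 2 + 1 / n : ℝ) ≤
      (Nat.card (Quot fun L L' : FullFld F Ω n (X * ((|discr F| : ℤ) : ℝ) ^ n) =>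
        Nonempty (L.1 ≃ₐ[F] L'.1)) : ℝ) := by
  obtain ⟨c, hc, h⟩ := iso_lower F Ω hn
  set D : ℝ := ((|discr F| : ℤ) : ℝ) ^ n with hD
  have hD0 : 0 < D := by
    have : (0 : ℝ) < ((|discr F| : ℤ) : ℝ) := by
      exact_mod_cast abs_pos.2 (discr_ne_zero F)
    positivity
  refine ⟨c * D ^ (1 / 2 + 1 / n : ℝ), by positivity, ?_⟩
  have ht : Tendsto (fun X : ℝ => X * D) atTop atTop := tendsto_id.atTop_mul_const hD0
  filter_upwards [ht.eventually h, eventually_gt_atTop 0] with X hX hX0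
  refine le_trans (le_of_eq ?_) hX
  rw [Real.mul_rpow hX0.le hD0.le]
  ring

end main

end Pool.Agent.Helper313SN
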