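import Pool.Agent.Helper313SN.Cnt
import Pool.Agent.Helper313LB.Tower

/-!
# Many extensions with full symmetric Galois group
-/

set_option autoImplicit false
set_option linter.all false

open Module NumberField IntermediateField Polynomial Filter Topology
open scoped Classical

namespace Pool.Agent.Helper313SN

open Pool.Agent.Helper313LB

variable (F Ω : Type) [Field F] [NumberField F] [Field Ω] [CharZero Ω] [Algebra F Ω]
  [IsAlgClosed Ω] [Normal F Ω]

theorem exists_le_ncard_SF {n : ℕ} (hn : 3 ≤ n) : ∃ c H₀ : ℝ, 0 < c ∧ 1 ≤ H₀ ∧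
    ∀ H : ℝ, H₀ ≤ H → c * H ^ (finrank ℚ F * ex n) ≤ ((SF F Ω n H).ncard : ℝ) := by
  obtain ⟨a, q, hq1, hbase⟩ := exists_base F Ω hn
  obtain ⟨c, hc0, hc⟩ := exists_le_ncard_Box F
  obtain ⟨D, hD⟩ : ∃ D : ℝ, ∀ (j : Fin (n - 1)) (σ : F →+* ℂ), ‖σ (a j : F)‖ ≤ D := by
    obtain ⟨D, hD⟩ := (Set.finite_range fun x : Fin (n - 1) × (F →+* ℂ) =>
      ‖x.2 (a x.1 : F)‖).bddAbove
    exact ⟨D, fun j σ => hD ⟨(j, σ), rfl⟩⟩
  have hqR : (1 : ℝ) ≤ q := by exact_mod_cast hq1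
  refine ⟨∏ j : Fin (n - 1), (c * (1 / (2 ^ (n - (j : ℕ)) * (2 * (q : ℝ)))) ^ finrank ℚ F),
    2 * max 1 (2 * D), Finset.prod_pos fun j _ => by positivity, ?_, ?_⟩
  · have := le_max_left 1 (2 * D)
    linarith
  intro H hH
  have hH1 : 1 ≤ H / 2 := by
    have := le_max_left 1 (2 * D)
    linarith
  have hH2 : 2 * D ≤ H / 2 := by
    have := le_max_right 1 (2 * D)
    linarith
  have hH0 : 0 < H := by linarith
  let B : Fin (n - 1) → ℝ := fun j => (H / 2) ^ (n - (j : ℕ)) / (2 * (q : ℝ))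
  have hB0 : ∀ j, 0 ≤ B j := fun j => by positivity
  let T : Finset (Fin (n - 1) → 𝓞 F) := Fintype.piFinset fun j => (finite_Box F (B j)).toFinset
  let A : (Fin (n - 1) → 𝓞 F) → Fin (n - 1) → 𝓞 F := fun b j => a j + (q : 𝓞 F) * b j
  have hq0 : (q : 𝓞 F) ≠ 0 := by
    exact_mod_cast (by omega : q ≠ 0)
  have hAinj : Function.Injective A := by
    intro b b' h
    funext j
    have h1 := congrFun h j
    exact mul_left_cancel₀ hq0 (add_left_cancel h1)
  have hAbox : ∀ b ∈ T, ∀ j : Fin (n - 1), A b j ∈ Box F ((H / 2) ^ (n - (j : ℕ))) := by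
    intro b hb j σ
    have h1 : ‖σ (b j : F)‖ ≤ B j := by
      have := (Fintype.mem_piFinset.1 hb) j
      rw [Set.Finite.mem_toFinset] at this
      exact this σ
    have h2 : (q : ℝ) * ‖σ (b j : F)‖ ≤ (H / 2) ^ (n - (j : ℕ)) / 2 := by
      calc (q : ℝ) * ‖σ (b j : F)‖ ≤ (q : ℝ) * B j :=
            mul_le_mul_of_nonneg_left h1 (by positivity)
        _ = _ := by simp only [B]; field_simp
    have e1 : σ ((a j + (q : 𝓞 F) * b j : 𝓞 F) : F) = σ (a j : F) + (q : ℂ) * σ (b j : F) := by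
      simp
    change ‖σ ((a j + (q : 𝓞 F) * b j : 𝓞 F) : F)‖ ≤ _
    rw [e1]
    refine (norm_add_le _ _).trans ?_
    rw [norm_mul, Complex.norm_natCast]
    have h5 : ‖σ (a j : F)‖ ≤ (H / 2) ^ (n - (j : ℕ)) / 2 := by
      have h6 : H / 2 ≤ (H / 2) ^ (n - (j : ℕ)) := le_self_pow₀ hH1 (by have := j.2; omega)
      have := hD j σ
      linarith
    linarith
  have hroot := fun b : T => root_mem_S F Ω (by omega : 1 ≤ n) (A b.1) hH0 (hAbox b.1 b.2)
    (hbase b.1).1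
  choose α hα1 hα2 using hroot
  have hαinj : Function.Injective α := by
    intro b b' h
    have h1 : P n (fun j => (A b.1 j : F)) = P n fun j => (A b'.1 j : F) := by
      rw [← hα2, ← hα2, h]
    have h2 : A b.1 = A b'.1 := by
      funext j
      have := congrArg (fun f => f.coeff (j : ℕ)) h1
      simp only [P_coeff] at this
      exact RingOfIntegers.coe_injective this
    exact Subtype.ext (hAinj h2)
  have hfin : (SF F Ω n H).Finite :=
    (S_finite_and_card F Ω (by omega : 2 ≤ n) (R := H) (by linarith)).1.subset fun _ h => h.1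
  have h1 : T.card ≤ (SF F Ω n H).ncard := by
    have h2 : Set.range α ⊆ SF F Ω n H := by
      rintro _ ⟨b, rfl⟩
      exact ⟨hα1 b, (hbase b.1).2 _ (hα2 b)⟩
    have h3 := Set.ncard_le_ncard h2 hfin
    rwa [← Set.image_univ, Set.ncard_image_of_injective _ hαinj, Set.ncard_univ,
      Nat.card_eq_fintype_card, Fintype.card_coe] at h3
  have h4 : ∏ j : Fin (n - 1), (c * B j ^ finrank ℚ F) ≤ (T.card : ℝ) := by
    rw [Fintype.card_piFinset]
    push_cast
    refine Finset.prod_le_prod (fun j _ => by positivity) fun j _ => ?_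
    rw [← Set.ncard_eq_toFinset_card _ (finite_Box F (B j))]
    exact hc _ (hB0 j)
  refine le_trans (le_of_eq ?_) (h4.trans (by exact_mod_cast h1))
  have h5 : H ^ (finrank ℚ F * ex n) = ∏ j : Fin (n - 1), (H ^ (n - (j : ℕ))) ^ finrank ℚ F := by
    rw [Finset.prod_pow, Finset.prod_pow_eq_pow_sum, ← pow_mul, mul_comm]
    rfl
  rw [h5, ← Finset.prod_mul_distrib]
  refine Finset.prod_congr rfl fun j _ => ?_
  simp only [B]
  rw [mul_assoc, ← mul_pow]
  congr 2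
  rw [div_pow]
  field_simp

theorem exists_le_ncard_EF {n : ℕ} (hn : 3 ≤ n) :
    ∃ c H₀ : ℝ, 0 < c ∧ 1 ≤ H₀ ∧ ∀ H : ℝ, H₀ ≤ H →
      (EF F Ω n H).Finite ∧ c * H ^ (finrank ℚ F * ex n) ≤ ((EF F Ω n H).ncard : ℝ) := by
  obtain ⟨c₁, H₁, hc₁, hH₁, hlow⟩ := exists_le_ncard_SF F Ω hn
  have hn2 : 2 ≤ n := by omega
  set d := finrank ℚ F with hd
  have hd0 : 0 < d := finrank_pos
  set C₂ : ℝ := n * (5 * 2 ^ n) ^ (d * (n - 1)) with hC₂
  have hC₂0 : 0 < C₂ := by
    have : (0 : ℝ) < n := by exact_mod_cast (by omega : 0 < n)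
    positivity
  have hex : d * (n - 1) < d * ex n := by
    have h1 := two_mul_ex hn2
    have h3 : n - 1 < ex n := by
      have : (n - 1) * 4 ≤ (n - 1) * (n + 2) := Nat.mul_le_mul_left _ (by omega)
      omega
    exact Nat.mul_lt_mul_of_pos_left h3 hd0
  -- choice of the ratio of the scales
  obtain ⟨t, ht1, ht⟩ : ∃ t : ℝ, 1 ≤ t ∧ 3 ^ (d * (n - 1)) * C₂ * 2 ≤ c₁ * t := by
    refine ⟨max 1 (3 ^ (d * (n - 1)) * C₂ * 2 / c₁), le_max_left _ _, ?_⟩
    have := le_max_right 1 (3 ^ (d * (n - 1)) * C₂ * 2 / c₁)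
    rw [div_le_iff₀ hc₁] at this
    linarith
  have ht0 : 0 < t := by linarith
  refine ⟨c₁ / (2 * (1 + 2 * t) ^ (d * (n - 1))), t * H₁, by positivity, ?_, fun H hH => ?_⟩
  · exact one_le_mul_of_one_le_of_one_le ht1 hH₁
  have hHt : H₁ ≤ H / t := by
    rw [le_div_iff₀ ht0]
    linarith
  have hρ : 1 ≤ H / t := hH₁.trans hHt
  have hHH : H / t ≤ H := div_le_self (by nlinarith) ht1
  have hH0 : 0 < H := by nlinarith
  have hf : (SF F Ω n H).Finite :=
    (S_finite_and_card F Ω hn2 (R := H) (hρ.trans hHH)).1.subset fun _ h => h.1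
  refine ⟨hf.image _, ?_⟩
  have h1 := SF_le (F := F) (Ω := Ω) hn2 hρ hHH
  have h2 := hlow H (hHt.trans hHH)
  have h3 := (S_finite_and_card F Ω hn2 (R := H / t) hρ).2
  rw [← hC₂, ← hd] at h3
  rw [← hd] at h1
  have e1 : 1 + 2 * H / (H / t) = 1 + 2 * t := by field_simp
  rw [e1] at h1
  set Y : ℝ := H ^ (d * ex n) with hY
  have hY0 : 0 < Y := by positivity
  set M : ℝ := (1 + 2 * t) ^ (d * (n - 1)) with hM
  have hM0 : 0 < M := by positivity
  have h4 : (H / t) ^ (d * ex n) = Y / t ^ (d * ex n) := by rw [div_pow]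
  rw [h4] at h3
  have h5 : M ≤ 3 ^ (d * (n - 1)) * t ^ (d * (n - 1)) := by
    rw [hM, ← mul_pow]
    exact pow_le_pow_left₀ (by positivity) (by linarith) _
  have h6 : M * (C₂ * (Y / t ^ (d * ex n))) ≤ c₁ / 2 * Y := by
    have h7 : t ^ (d * (n - 1)) * t ≤ t ^ (d * ex n) := by
      rw [← pow_succ]
      exact pow_le_pow_right₀ ht1 hex
    have h8 : 0 < t ^ (d * ex n) := by positivity
    rw [mul_div_assoc', mul_div_assoc', div_le_iff₀ h8]
    calc M * (C₂ * Y) ≤ (3 ^ (d * (n - 1)) * t ^ (d * (n - 1))) * (C₂ * Y) :=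
          mul_le_mul_of_nonneg_right h5 (by positivity)
      _ = (3 ^ (d * (n - 1)) * C₂ * 2) * (t ^ (d * (n - 1)) * Y / 2) := by ring
      _ ≤ (c₁ * t) * (t ^ (d * (n - 1)) * Y / 2) := mul_le_mul_of_nonneg_right ht (by positivity)
      _ = c₁ / 2 * Y * (t ^ (d * (n - 1)) * t) := by ring
      _ ≤ c₁ / 2 * Y * t ^ (d * ex n) := mul_le_mul_of_nonneg_left h7 (by positivity)
  have h9 : c₁ * Y ≤ c₁ / 2 * Y + M * ((EF F Ω n H).ncard : ℝ) := by
    calc c₁ * Y ≤ ((SF F Ω n H).ncard : ℝ) := h2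
      _ ≤ M * (((S F Ω n (H / t)).ncard : ℝ) + ((EF F Ω n H).ncard : ℝ)) := h1
      _ ≤ M * (C₂ * (Y / t ^ (d * ex n)) + ((EF F Ω n H).ncard : ℝ)) :=
          mul_le_mul_of_nonneg_left (by linarith) hM0.le
      _ = M * (C₂ * (Y / t ^ (d * ex n))) + M * ((EF F Ω n H).ncard : ℝ) := by ring
      _ ≤ _ := by linarith
  rw [div_mul_eq_mul_div, div_le_iff₀ (by positivity)]
  nlinarith

/-- the extensions of degree `n` with full symmetric group and `|d_L| ≤ X` -/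
def FullFld (n : ℕ) (X : ℝ) : Set (IntermediateField F Ω) :=
  {L | finrank F L = n ∧ Full L ∧ ∃ h : NumberField L, ((|@discr L _ h| : ℤ) : ℝ) ≤ X}

theorem finite_FullFld (n : ℕ) (X : ℝ) : (FullFld F Ω n X).Finite :=
  (finite_Fld F Ω X (n := n)).subset fun _ h => ⟨h.1, h.2.2⟩

theorem full_lower {n : ℕ} (hn : 3 ≤ n) : ∃ c : ℝ, 0 < c ∧ ∀ᶠ X : ℝ in atTop,
    c * X ^ (1 / 2 + 1 / n : ℝ) ≤ ((FullFld F Ω n X).ncard : ℝ) := by
  obtain ⟨c, H₀, hc, hH₀, h1⟩ := exists_le_ncard_EF F Ω hn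
  obtain ⟨K, hK, h2⟩ := Ext_discr F Ω n
  set d := finrank ℚ F with hd
  have hd0 : 0 < d := finrank_pos
  have hp2 : 2 ≤ n := by omega
  set m : ℕ := d * (n * (n - 1)) with hm
  have hm0 : m ≠ 0 := by
    have : 0 < n * (n - 1) := Nat.mul_pos (by omega) (by omega)
    positivity
  have hmR : (0 : ℝ) < m := by exact_mod_cast Nat.pos_of_ne_zero hm0
  -- the exponent
  have hexp : ((d * ex n : ℕ) : ℝ) / m = 1 / 2 + 1 / n := by
    have h3 : (2 : ℝ) * ex n = ((n : ℝ) - 1) * (n + 2) := by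
      have := two_mul_ex hp2
      have h4 : ((2 * ex n : ℕ) : ℝ) = (((n - 1) * (n + 2) : ℕ) : ℝ) := by rw [this]
      push_cast [Nat.cast_sub (by omega : 1 ≤ n)] at h4
      exact h4
    have hp0 : (0 : ℝ) < n := by exact_mod_cast (by omega : 0 < n)
    have hp1 : (0 : ℝ) < (n : ℝ) - 1 := by
      have : (2 : ℝ) ≤ n := by exact_mod_cast hp2
      linarith
    have hdR : (0 : ℝ) < d := by exact_mod_cast hd0
    rw [hm]
    push_cast [Nat.cast_sub (by omega : 1 ≤ n)]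
    rw [div_eq_iff (by positivity)]
    have h5 : (ex n : ℝ) = ((n : ℝ) - 1) * (n + 2) / 2 := by linarith
    rw [h5]
    field_simp
  have hK' : (0 : ℝ) < K := hK
  refine ⟨c * (1 / K) ^ (1 / 2 + 1 / n : ℝ), by positivity, ?_⟩
  filter_upwards [eventually_ge_atTop (K * H₀ ^ m)] with X hX
  have hX0 : 0 < X := lt_of_lt_of_le (by positivity) hX
  set H : ℝ := (X / K) ^ (1 / (m : ℝ)) with hH
  have hHm : H ^ m = X / K := by
    rw [hH, ← Real.rpow_natCast, ← Real.rpow_mul (by positivity), one_div_mul_cancel hmR.ne',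
      Real.rpow_one]
  have hHH₀ : H₀ ≤ H := by
    have h3 : H₀ ^ m ≤ H ^ m := by
      rw [hHm, le_div_iff₀ hK]
      linarith
    exact le_of_pow_le_pow_left₀ hm0 (by positivity) h3
  obtain ⟨hfin, h4⟩ := h1 H hHH₀
  have h5 : H ^ (d * ex n) = (1 / K) ^ (1 / 2 + 1 / n : ℝ) * X ^ (1 / 2 + 1 / n : ℝ) := by
    rw [← Real.mul_rpow (by positivity) (by positivity), ← hexp, hH, ← Real.rpow_natCast,
      ← Real.rpow_mul (by positivity)]
    congr 1
    · ring
    · ring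
  rw [mul_assoc, ← h5]
  refine h4.trans ?_
  have h6 : EF F Ω n H ⊆ FullFld F Ω n X := by
    intro L hL
    obtain ⟨hnf, h7⟩ := h2 H (hH₀.trans hHH₀) L (EF_sub hL)
    refine ⟨Ext_finrank (EF_sub hL), EF_full hL, hnf, h7.trans (le_of_eq ?_)⟩
    rw [hHm]
    field_simp
  exact_mod_cast Set.ncard_le_ncard h6 (finite_FullFld F Ω n X)

end Pool.Agent.Helper313SN
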