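import Pool.Agent.Helper313SN.Frob
import Pool.Agent.X243.Sol.Cyc

/-!
# Full symmetric Galois groups from three primes
-/

set_option autoImplicit false
set_option linter.all false

open Polynomial NumberField
open scoped Classical

namespace Pool.Agent.Helper313SN

open Pool.Agent.X243.Sol

variable {k : Type} [Field k] [NumberField k]

theorem sep_lin {R : Type} [Field R] [Finite R] {π : R[X]} (hπ : Irreducible π)
    (h : 2 ≤ π.natDegree) {d : R} (hd : d ≠ 0) (S : Finset R) :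
    (C d * π * ∏ c ∈ S, (X - C c)).Separable := by
  haveI : PerfectField R := PerfectField.ofFinite
  have h1 : π.Separable := PerfectField.separable_of_irreducible hπ
  have h2 : (∏ c ∈ S, (X - C c) : R[X]).Separable := by
    apply separable_prod_X_sub_C_iff'.2
    exact fun x _ y _ h => h
  have h3 : IsCoprime π (∏ c ∈ S, (X - C c) : R[X]) := by
    rw [hπ.coprime_iff_not_dvd]
    intro hdv
    obtain ⟨c, -, hc⟩ := (hπ.prime.dvd_finset_prod_iff _).1 hdv
    have := natDegree_le_of_dvd hc (X_sub_C_ne_zero c)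
    rw [natDegree_X_sub_C] at this
    omega
  have h4 : (π * ∏ c ∈ S, (X - C c)).Separable := h1.mul h2 h3
  have h5 : C d * π * ∏ c ∈ S, (X - C c) = C d * (π * ∏ c ∈ S, (X - C c)) := by ring
  rw [h5]
  exact Separable.unit_mul (isUnit_C.2 (isUnit_iff_ne_zero.2 hd)) h4

/-- A polynomial with irreducible image over `k`, with a reduction which is a linear times an
irreducible polynomial, and a reduction which is an irreducible polynomial of degree two times
different linear polynomials, has full symmetric Galois group. -/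
theorem surj_of (Q2 Q3 : Ideal (𝓞 k)) [Q2.IsMaximal] [Q3.IsMaximal] {f : (𝓞 k)[X]}
    (hf : f.Monic) (hirr : Irreducible (f.map (algebraMap (𝓞 k) k)))
    {c2 : 𝓞 k ⧸ Q2} {π2 : (𝓞 k ⧸ Q2)[X]} (h2i : Irreducible π2) (h2d : 2 ≤ π2.natDegree)
    (h2 : f.map (Ideal.Quotient.mk Q2) = (X - C c2) * π2)
    {S : Finset (𝓞 k ⧸ Q3)} {π3 : (𝓞 k ⧸ Q3)[X]} (h3i : Irreducible π3) (h3d : π3.natDegree = 2)
    (h3 : f.map (Ideal.Quotient.mk Q3) = π3 * ∏ c ∈ S, (X - C c))
    (E : Type) [Field E] [NumberField E] [Algebra k E] [IsGalois k E]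
    (hspl : ((f.map (algebraMap (𝓞 k) k)).map (algebraMap k E)).Splits) :
    Function.Surjective (MulAction.toPermHom (E ≃ₐ[k] E)
      ((f.map (algebraMap (𝓞 k) k)).rootSet E)) := by
  have hb2 : Q2 ≠ ⊥ := Ring.ne_bot_of_isMaximal_of_not_isField ‹_› (RingOfIntegers.not_isField k)
  have hb3 : Q3 ≠ ⊥ := Ring.ne_bot_of_isMaximal_of_not_isField ‹_› (RingOfIntegers.not_isField k)
  letI : Field (𝓞 k ⧸ Q2) := Ideal.Quotient.field Q2
  letI : Field (𝓞 k ⧸ Q3) := Ideal.Quotient.field Q3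
  haveI : Finite (𝓞 k ⧸ Q2) := Ideal.finiteQuotientOfFreeOfNeBot _ hb2
  haveI : Finite (𝓞 k ⧸ Q3) := Ideal.finiteQuotientOfFreeOfNeBot _ hb3
  have hfac2 : f.map (Ideal.Quotient.mk Q2) = C 1 * (X - C c2) * π2 := by
    rw [h2, C_1, one_mul]
  have hfac3 : f.map (Ideal.Quotient.mk Q3) = C 1 * π3 * ∏ c ∈ S, (X - C c) := by
    rw [h3, C_1, one_mul]
  have hsep2 : (f.map (Ideal.Quotient.mk Q2)).Separable := by
    have h4 := sep_lin h2i h2d one_ne_zero {c2}
    rw [Finset.prod_singleton] at h4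
    rw [hfac2]
    have e : C 1 * (X - C c2) * π2 = C 1 * π2 * (X - C c2) := by ring
    rw [e]
    exact h4
  have hsep3 : (f.map (Ideal.Quotient.mk Q3)).Separable := by
    rw [hfac3]
    exact sep_lin h3i h3d.ge one_ne_zero S
  obtain ⟨κ, _, j, r, σ, hσ, hr⟩ := exists_frob Q2 hf hsep2 E hspl
  obtain ⟨κ', _, j', r', σ', hσ', hr'⟩ := exists_frob Q3 hf hsep3 E hspl
  obtain ⟨a, hsa, htr⟩ := type_two j hsep2 hr hσ h2i hfac2
  have hsw := type_swap j' hsep3 hr' hσ' h3i h3d hfac3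
  rw [← MonoidHom.range_eq_top]
  refine top_of _ a ?_ ?_ ⟨_, ⟨σ', rfl⟩, hsw⟩
  · intro x
    have h5 : minpoly k (x : E) = minpoly k (a : E) := by
      rw [← minpoly.eq_of_irreducible hirr (aeval_eq_zero_of_mem_rootSet x.2),
        ← minpoly.eq_of_irreducible hirr (aeval_eq_zero_of_mem_rootSet a.2)]
    have h6 := (Normal.minpoly_eq_iff_mem_orbit (F := k) (E := E)).1 h5.symm
    obtain ⟨g, hg⟩ := h6
    refine ⟨_, ⟨g, rfl⟩, ?_⟩
    exact Subtype.ext hg
  · intro x y hx hy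
    obtain ⟨n, hn⟩ := htr x y hx hy
    refine ⟨_, ⟨σ ^ n, rfl⟩, ?_, ?_⟩
    · rw [map_pow]
      exact Function.IsFixedPt.perm_pow hsa n
    · rw [map_pow]
      exact hn

end Pool.Agent.Helper313SN
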